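import Pool.Agent.H752.GM.Stubs
import Pool.Agent.H620R2.GaugeR.R1

/-!
# S1: questions to a sparse set can be replaced by advice
-/

namespace Pool.Agent.H752.GM

open Pool.Agent.NPC Pool.Agent.H620R2.Gauge Pool.Agent.H622R2

namespace S1

theorem ustep_len (s : List Bool × List Bool × Bool) :
    (ustep s).1.length + (ustep s).2.1.length ≤ s.1.length + s.2.1.length := by
  obtain ⟨a, l, b⟩ := s
  unfold ustep
  cases b with
  | true => simp
  | false =>
    match l with
    | [] => simp
    | true :: [] => simp
    | true :: c :: l' => simp; omega
    | false :: l' => simp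

theorem iter_len (k : ℕ) : ∀ s : List Bool × List Bool × Bool,
    (ustep^[k] s).1.length + (ustep^[k] s).2.1.length ≤ s.1.length + s.2.1.length := by
  induction k with
  | zero => intro s; simp
  | succ k ih =>
    intro s
    rw [Function.iterate_succ_apply]
    exact (ih _).trans (ustep_len s)

theorem unpair_len (y : List Bool) : (unpair y).2.length ≤ y.length := by
  have := iter_len y.length ([], y, false)
  unfold unpair
  simp only [List.length_nil] at this
  simp only
  omega

/-- one step of the search in a coded list -/
def memStep (z : List Bool) (st : List Bool × Bool) : List Bool × Bool :=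
  if st.1 = [] then st else ((unpair st.1.tail).2, st.2 || decide ((unpair st.1.tail).1 = z))

/-- is `z` in the list coded by `w`? -/
def memb (z w : List Bool) : Bool := (w.foldl (fun st _ => memStep z st) (w, false)).2

theorem memb_aux (z : List Bool) : ∀ (L : List (List Bool)) (c : List Bool) (b : Bool),
    L.length ≤ c.length →
    (c.foldl (fun st _ => memStep z st) (lst L, b)).2 = (b || decide (z ∈ L)) := by
  intro L
  induction L with
  | nil =>
    intro c b _
    have : ∀ c : List Bool, c.foldl (fun st _ => memStep z st) (lst [], b) = (lst [], b) := by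
      intro c
      induction c with
      | nil => rfl
      | cons d c ih => rw [List.foldl_cons]; simpa [memStep, lst] using ih
    rw [this]
    simp
  | cons x xs ih =>
    intro c b hc
    match c with
    | [] => simp at hc
    | d :: c =>
      rw [List.foldl_cons]
      have h1 : memStep z (lst (x :: xs), b) = (lst xs, b || decide (x = z)) := by
        have e : lst (x :: xs) = true :: pairBits x (lst xs) := rfl
        rw [e]
        unfold memStep
        rw [if_neg (by simp)]
        simp only [List.tail_cons, unpair_pairBits]
      rw [h1, ih c _ (by simpa using hc), Bool.or_assoc]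
      congr 1
      by_cases h : x = z
      · simp [h]
      · have h' : z ≠ x := fun e => h e.symm
        simp [h, h']

theorem length_lst_ge (L : List (List Bool)) : L.length ≤ (lst L).length := by
  induction L with
  | nil => simp [lst]
  | cons x xs ih =>
    unfold lst
    rw [List.length_cons, List.length_cons, A2.length_pairBits]
    omega

theorem memb_lst (z : List Bool) (L : List (List Bool)) : memb z (lst L) = decide (z ∈ L) := by
  unfold memb
  rw [memb_aux z L _ _ (length_lst_ge L)]
  simp

theorem fold_len (z : List Bool) : ∀ (c : List Bool) (st : List Bool × Bool),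
    (c.foldl (fun st _ => memStep z st) st).1.length ≤ st.1.length := by
  intro c
  induction c with
  | nil => intro st; simp
  | cons d c ih =>
    intro st
    rw [List.foldl_cons]
    refine (ih _).trans ?_
    unfold memStep
    split_ifs with h
    · exact le_rfl
    · have := unpair_len st.1.tail
      simp only
      rw [List.length_tail] at this
      omega

theorem poly_memb {α : Type} [TEnc α] {z w : α → List Bool} (hz : Poly z) (hw : Poly w) :
    Poly (fun a => memb (z a) (w a)) := by
  have hstep : Poly (fun p : α × (List Bool × Bool) × Bool => memStep (z p.1) p.2.1) := by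
    have h1 : Poly (fun p : α × (List Bool × Bool) × Bool => p.2.1.1) :=
      Poly.fst (Poly.fst (Poly.snd Poly.id))
    have h2 : Poly (fun p : α × (List Bool × Bool) × Bool => unpair p.2.1.1.tail) :=
      poly_unpair.comp (Poly.tail h1)
    exact Poly.ite (Poly.decide_eq h1 (NPC.Poly.const [])) (Poly.fst (Poly.snd Poly.id))
      (Poly.pair (Poly.snd h2) (Poly.or (Poly.snd (Poly.fst (Poly.snd Poly.id)))
        (Poly.decide_eq (Poly.fst h2) (hz.comp (Poly.fst Poly.id)))))
  obtain ⟨q, hq⟩ := hw.sz_le
  refine Poly.snd (Poly.foldl (l := w) (s := fun a => (w a, false))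
    (F := fun a st _ => memStep (z a) st) hw (Poly.pair hw (NPC.Poly.const _)) hstep
    (Polynomial.C 4 * q + Polynomial.C 5) ?_)
  intro a k _
  have h1 := fold_len (z a) ((w a).take k) (w a, false)
  have h2 := hq a
  have h3 := length_lt_sz (w a)
  generalize ((w a).take k).foldl (fun st _ => memStep (z a) st) (w a, false) = st at *
  obtain ⟨s1, s2⟩ := st
  have h4 := sz_listBool_le s1
  have h5 := sz_bool_le s2
  simp only [sz_pair, Polynomial.eval_add, Polynomial.eval_mul, Polynomial.eval_C] at *
  omega

/-- the action of `M` in the state `s = ⟨⟨x, w⟩, a⟩` -/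
def act (D : List Bool → List Bool) (s : List Bool) : List Bool :=
  D (pairBits (unpair (unpair s).1).1 (unpair s).2)

/-- the question to `A` -/
def qu (D : List Bool → List Bool) (s : List Bool) : List (List Bool) :=
  if (act D s).tail.head? = some false then [(act D s).tail.tail] else []

/-- the answer -/
def ans (D : List Bool → List Bool) (p : List Bool × List Bool) : Bool :=
  if (act D p.1).tail.head? = some false then decide (p.2.head? = some true) else
    if (act D p.1).tail.head? = some true then
      memb (act D p.1).tail.tail (unpair (unpair p.1).1).2 else false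

/-- the next state -/
def nx (D : List Bool → List Bool) (p : List Bool × List Bool) : List Bool :=
  if (act D p.1).head? = some false then
    pairBits (unpair p.1).1 ((unpair p.1).2 ++ [ans D p]) else p.1

theorem poly_act {D : List Bool → List Bool} (hD : Poly D) {α : Type} [TEnc α]
    {s : α → List Bool} (hs : Poly s) : Poly (fun a => act D (s a)) := by
  have h1 : Poly (fun a => unpair (s a)) := poly_unpair.comp hs
  have h2 : Poly (fun a => unpair (unpair (s a)).1) := poly_unpair.comp (Poly.fst h1)
  exact hD.comp (poly_pairBits (Poly.fst h2) (Poly.snd h1))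

theorem poly_qu {D : List Bool → List Bool} (hD : Poly D) : Poly (qu D) := by
  have h := poly_act hD (α := List Bool) (s := fun s => s) Poly.id
  exact Poly.ite (Poly.decide_eq (Poly.head? (Poly.tail h)) (NPC.Poly.const _))
    (Poly.cons (Poly.tail (Poly.tail h)) (NPC.Poly.const [])) (NPC.Poly.const [])

theorem poly_ans {D : List Bool → List Bool} (hD : Poly D) : Poly (ans D) := by
  have h := poly_act hD (α := List Bool × List Bool) (s := fun p => p.1) (Poly.fst Poly.id)
  have h1 : Poly (fun p : List Bool × List Bool => unpair p.1) :=
    poly_unpair.comp (Poly.fst Poly.id)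
  have h2 : Poly (fun p : List Bool × List Bool => unpair (unpair p.1).1) :=
    poly_unpair.comp (Poly.fst h1)
  exact Poly.ite (Poly.decide_eq (Poly.head? (Poly.tail h)) (NPC.Poly.const _))
    (Poly.decide_eq (Poly.head? (Poly.snd Poly.id)) (NPC.Poly.const _))
    (Poly.ite (Poly.decide_eq (Poly.head? (Poly.tail h)) (NPC.Poly.const _))
      (poly_memb (Poly.tail (Poly.tail h)) (Poly.snd h2)) (NPC.Poly.const _))

theorem poly_nx {D : List Bool → List Bool} (hD : Poly D) : Poly (nx D) := by
  have h := poly_act hD (α := List Bool × List Bool) (s := fun p => p.1) (Poly.fst Poly.id)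
  have h1 : Poly (fun p : List Bool × List Bool => unpair p.1) :=
    poly_unpair.comp (Poly.fst Poly.id)
  exact Poly.ite (Poly.decide_eq (Poly.head? h) (NPC.Poly.const _))
    (poly_pairBits (Poly.fst h1) (Poly.append (Poly.snd h1)
      (Poly.cons (poly_ans hD) (NPC.Poly.const [])))) (Poly.fst Poly.id)

/-- one step of the simulation -/
def F (A : Oracle) (D : List Bool → List Bool) (s : List Bool) : List Bool :=
  nx D (s, (qu D s).map A)

theorem isFP_F (A : Oracle) {D : List Bool → List Bool} (hD : Poly D) : IsFP A (F A D) :=
  IsFP.tt (poly_qu hD) (poly_nx hD)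

theorem F_pair (A : Oracle) (D : List Bool → List Bool) (y a : List Bool) :
    F A D (pairBits y a) = pairBits y a ∨ ∃ b, F A D (pairBits y a) = pairBits y (a ++ [b]) := by
  unfold F nx
  simp only [unpair_pairBits]
  split_ifs
  · exact Or.inr ⟨_, rfl⟩
  · exact Or.inl rfl

theorem iter_pair (A : Oracle) (D : List Bool → List Bool) (y : List Bool) (i : ℕ) :
    ∀ a : List Bool, ∃ a', (F A D)^[i] (pairBits y a) = pairBits y a' ∧
      a'.length ≤ a.length + i := by
  induction i with
  | zero => intro a; exact ⟨a, rfl, le_rfl⟩
  | succ i ih =>
    intro a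
    rw [Function.iterate_succ_apply]
    rcases F_pair A D y a with h | ⟨b, h⟩
    · rw [h]
      obtain ⟨a', h1, h2⟩ := ih a
      exact ⟨a', h1, by omega⟩
    · rw [h]
      obtain ⟨a', h1, h2⟩ := ih (a ++ [b])
      refine ⟨a', h1, ?_⟩
      rw [List.length_append, List.length_singleton] at h2
      omega

/-- the decoded output -/
def post (D : List Bool → List Bool) (s : List Bool) : List Bool := (act D s).tail

theorem act_pair (D : List Bool → List Bool) (x w a : List Bool) :
    act D (pairBits (pairBits x w) a) = D (pairBits x a) := by
  unfold act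
  simp only [unpair_pairBits]

theorem F_ask (A : Oracle) (S : Set (List Bool)) (D : List Bool → List Bool)
    (x : List Bool) (L : List (List Bool)) (a : List Bool)
    (hL : ∀ z, z.length < (D (pairBits x a)).length → (z ∈ L ↔ z ∈ S))
    (h : (D (pairBits x a)).head? = some false) :
    F A D (pairBits (pairBits x (lst L)) a) =
      pairBits (pairBits x (lst L)) (a ++ [join A S (D (pairBits x a)).tail]) := by
  unfold F nx
  simp only [unpair_pairBits, act_pair]
  rw [if_pos h]
  congr 3
  unfold ans qu
  simp only [unpair_pairBits, act_pair]
  generalize hE : D (pairBits x a) = E at *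
  match E, h, hL with
  | e :: [], _, _ => simp [join]
  | e :: false :: z, _, _ =>
    simp only [List.tail_cons, List.head?_cons, if_true, List.map_cons, List.map_nil, join]
    simp
  | e :: true :: z, _, hL =>
    simp only [List.tail_cons, List.head?_cons, join, memb_lst]
    have := hL z (by simp)
    simp [this]

theorem F_stop (A : Oracle) (D : List Bool → List Bool) (x w a : List Bool)
    (h : (D (pairBits x a)).head? ≠ some false) :
    F A D (pairBits (pairBits x w) a) = pairBits (pairBits x w) a := by
  unfold F nx
  simp only [act_pair]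
  rw [if_neg h]

theorem sim (A : Oracle) (S : Set (List Bool)) (M : Alg) (b : Polynomial ℕ)
    (hb : ∀ x a : List Bool, a.length ≤ M.p.eval x.length →
      (M.D (pairBits x a)).length ≤ b.eval x.length)
    (x : List Bool) (L : List (List Bool))
    (hL : ∀ z, z.length ≤ b.eval x.length → (z ∈ L ↔ z ∈ S)) (z : List Bool) :
    ∀ (n : ℕ) (a : List Bool), a.length + n ≤ M.p.eval x.length →
      M.run (join A S) x n a = some z → ∀ m ≥ n,
      post M.D ((F A M.D)^[m] (pairBits (pairBits x (lst L)) a)) = z := by
  intro n
  induction n with
  | zero => intro a _ h; simp [Alg.run] at h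
  | succ n ih =>
    intro a ha h m hm
    obtain ⟨m, rfl⟩ : ∃ m', m = m' + 1 := ⟨m - 1, by omega⟩
    rw [A2.run_succ] at h
    have hba := hb x a (by omega)
    split_ifs at h with h1
    · rw [Function.iterate_succ_apply, F_ask A S M.D x L a
        (fun z hz => hL z (hz.le.trans hba)) h1]
      refine ih _ ?_ h m (by omega)
      rw [List.length_append, List.length_singleton]
      omega
    · have h2 : ∀ k, (F A M.D)^[k] (pairBits (pairBits x (lst L)) a) =
          pairBits (pairBits x (lst L)) a := by
        intro k
        induction k with
        | zero => rfl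
        | succ k ih => rw [Function.iterate_succ_apply, F_stop A M.D x _ a h1, ih]
      rw [h2]
      unfold post
      rw [act_pair]
      simpa using h

theorem length_lst_le (L : List (List Bool)) (B : ℕ) (h : ∀ z ∈ L, z.length ≤ B) :
    (lst L).length ≤ L.length * (2 * B + 2) := by
  induction L with
  | nil => simp [lst]
  | cons x xs ih =>
    have h1 := ih (fun z hz => h z (List.mem_cons_of_mem _ hz))
    have h2 := h x (List.mem_cons_self)
    unfold lst
    rw [List.length_cons, List.length_cons, A2.length_pairBits, add_mul]
    omega

theorem finite_short (S : Set (List Bool)) (n : ℕ) :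
    ({x | x ∈ S ∧ x.length ≤ n} : Set (List Bool)).Finite :=
  (List.finite_length_le Bool n).subset (fun _ hx => hx.2)

/-- the advice -/
noncomputable def adv (S : Set (List Bool)) (n : ℕ) : List (List Bool) :=
  (finite_short S n).toFinset.toList

theorem mem_adv (S : Set (List Bool)) (n : ℕ) (z : List Bool) :
    z ∈ adv S n ↔ z ∈ S ∧ z.length ≤ n := by
  unfold adv
  rw [Finset.mem_toList, Set.Finite.mem_toFinset]
  rfl

theorem length_adv (S : Set (List Bool)) (n : ℕ) :
    (adv S n).length = ({x | x ∈ S ∧ x.length ≤ n} : Set (List Bool)).ncard := by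
  unfold adv
  rw [Finset.length_toList, Set.ncard_eq_toFinset_card _ (finite_short S n)]

end S1

theorem t_sparseP : St_sparseP := by
  intro A S L hS hL
  obtain ⟨ps, hps⟩ := hS
  obtain ⟨V, ⟨M, hM⟩, hV⟩ := hL
  obtain ⟨b, hb⟩ := A2.act_bound M
  have hD : Poly M.D := poly_of_polyTime M.poly
  set V' : List Bool → List Bool := fun y =>
    S1.post M.D ((S1.F A M.D)^[M.p.eval y.length] (pairBits y [])) with hV'
  have hloop : IsFP A (fun y => (S1.F A M.D)^[M.p.eval y.length] (pairBits y [])) := by
    refine IsFP.loop (S1.isFP_F A hD) (g := fun y => pairBits y [])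
      (poly_pairBits Poly.id (NPC.Poly.const [])) M.p
      (Polynomial.C 2 * Polynomial.X + M.p + Polynomial.C 1) ?_
    intro y i hi
    obtain ⟨a', h1, h2⟩ := S1.iter_pair A M.D y i []
    rw [h1, A2.length_pairBits]
    simp only [Polynomial.eval_add, Polynomial.eval_mul, Polynomial.eval_C, Polynomial.eval_X]
    simp only [List.length_nil] at h2
    omega
  have hFP : IsFP A V' := IsFP.comp
    (IsFP.of_poly (F := S1.post M.D) (Poly.tail (S1.poly_act hD Poly.id))) hloop
  refine ⟨{y | V' y = [true]}, fun n => lst (S1.adv S (b.eval n)),
    (ps.comp b) * (Polynomial.C 2 * b + Polynomial.C 2), ⟨V', hFP, fun y => Iff.rfl⟩, ?_, ?_⟩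
  · intro n
    have h1 := S1.length_lst_le (S1.adv S (b.eval n)) (b.eval n)
      (fun z hz => ((S1.mem_adv S _ z).1 hz).2)
    rw [S1.length_adv] at h1
    refine h1.trans ?_
    simp only [Polynomial.eval_mul, Polynomial.eval_comp, Polynomial.eval_add, Polynomial.eval_C]
    exact Nat.mul_le_mul_right _ (hps _)
  · intro x
    rw [hV x]
    have h1 := S1.sim A S M b hb x (S1.adv S (b.eval x.length))
      (fun z hz => by rw [S1.mem_adv]; exact ⟨fun h => h.1, fun h => ⟨h, hz⟩⟩) (V x)
      (M.p.eval x.length) [] (by simp) (hM x)
      (M.p.eval (pairBits x (lst (S1.adv S (b.eval x.length)))).length) (by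
        apply eval_mono
        rw [A2.length_pairBits]
        omega)
    change _ ↔ V' _ = [true]
    rw [hV']
    simp only
    rw [h1]

end Pool.Agent.H752.GM
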